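import Pool.Agent.H84.PrettyA

set_option autoImplicit false

namespace Pool.Agent.Results.MP_9e6edb_gt.Counter
open Pool.Agent.H84.Pretty

/-- A basically disconnected (zero-dimensional Hausdorff, closures of countable unions of clopen
sets are clopen) space with a cocompact pretty base and a point without compact neighbourhood. -/
theorem result : ∃ (X : Type) (_ : TopologicalSpace X), T2Space X ∧
    TopologicalSpace.IsTopologicalBasis {s : Set X | IsClopen s} ∧
    (∀ s : ℕ → Set X, (∀ n, IsClopen (s n)) → IsClopen (closure (⋃ n, s n))) ∧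
    HasCocompactPrettyBase X ∧
    ∃ p : X, ∀ K : Set X, IsCompact K → K ∉ nhds p := by
  obtain ⟨X, t, h1, h2, h3, p, h4, -⟩ := exists_space
  refine ⟨X, t, inferInstance, ?_, fun s hs => ⟨isClosed_closure, ?_⟩, h2, p, h4⟩
  · obtain ⟨B, ⟨hB, hB', -⟩, -⟩ := h2
    refine TopologicalSpace.isTopologicalBasis_of_isOpen_of_nhds (fun _ h => h.isOpen) ?_
    intro x U hx hU
    obtain ⟨V, hV, h5, h6⟩ := hB.exists_subset_of_mem_open hx hU
    exact ⟨V, hB' V hV, h5, h6⟩
  · exact h3.open_closure _ (isOpen_iUnion fun n => (hs n).isOpen)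

end Pool.Agent.Results.MP_9e6edb_gt.Counter
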